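import Pool.Agent.J4H56.LC.Two

/-! Project LC (helper13): job THREE. -/

set_option autoImplicit false

open MvPolynomial

namespace Pool.Agent.J4H56.LC

open Pool.Agent.J4H13.LA Pool.Agent.J4H13.LC

lemma two_choose (k : ℕ) : 2 * (k + 1).choose 2 = (k + 1) * k := by
  rw [Nat.choose_two_right, Nat.add_sub_cancel]
  apply Nat.two_mul_div_two_of_even
  rw [mul_comm]
  exact Nat.even_mul_succ_self k

/-- the number of conditions -/
lemma cond_lt {α β c t : ℕ} (hc : 1 ≤ c) (ht1 : t ≤ 2 * α + 2) (ht2 : t ≤ 2 * β + 2)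
    (hct : c = 1 → t = 0) :
    (α + 1).choose 2 + (β + 1).choose 2 + (c - 2 + 1).choose 2 + t < (α + β + c + 1).choose 2 := by
  have h1 := two_choose α
  have h2 := two_choose β
  have h3 := two_choose (c - 2)
  have h4 := two_choose (α + β + c)
  rcases Nat.lt_or_ge c 2 with h | h
  · have hc1 : c = 1 := by omega
    subst hc1
    have := hct rfl
    subst this
    simp only [show 1 - 2 = 0 from rfl] at h3 ⊢
    nlinarith
  · obtain ⟨d, rfl⟩ : ∃ d, c = d + 2 := ⟨c - 2, by omega⟩
    rw [Nat.add_sub_cancel] at h3 ⊢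
    have h5 : 0 ≤ α * β := Nat.zero_le _
    have h6 : 0 ≤ d * α := Nat.zero_le _
    have h7 : 0 ≤ d * β := Nat.zero_le _
    nlinarith

theorem t_THREE : S_THREE := by
  classical
  intro hB hD C hC hNice k l hl A B E hA hBf hE hAB hAE hBE hCA hCB hCE h3A h3B h2E hoA hoB heE
    hi hall
  obtain ⟨i, hiA, hiB, hiE⟩ := hi
  have hiA' : i ∈ thr l A := (mem_thr l).2 hiA
  have hiB' : i ∈ thr l B := (mem_thr l).2 hiB
  have hiE' : i ∈ thr l E := (mem_thr l).2 hiE
  obtain ⟨a, ha⟩ := hoA
  obtain ⟨b, hb⟩ := hoB
  obtain ⟨c, hc⟩ := heE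
  -- the number of lines
  have hun : thr l A ∪ thr l B ∪ thr l E = Finset.univ := by
    apply Finset.eq_univ_of_forall
    intro j
    rw [Finset.mem_union, Finset.mem_union, mem_thr, mem_thr, mem_thr]
    rcases hall j with h | h | h
    · exact Or.inl (Or.inl h)
    · exact Or.inl (Or.inr h)
    · exact Or.inr h
  have hint1 : (thr l A ∩ thr l B).card = 1 := by
    apply le_antisymm (card_inter_le hl hA.le hBf.le hAB)
    exact Finset.card_pos.2 ⟨i, Finset.mem_inter.2 ⟨hiA', hiB'⟩⟩
  have hint2 : ((thr l A ∪ thr l B) ∩ thr l E).card = 1 := by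
    have : (thr l A ∪ thr l B) ∩ thr l E = {i} := by
      ext j
      rw [Finset.mem_inter, Finset.mem_union, Finset.mem_singleton, mem_thr, mem_thr, mem_thr]
      constructor
      · rintro ⟨h1 | h1, h2⟩
        · by_contra hji
          exact hAE (eq_of_two hl hA.le hE.le hji h1 hiA h2 hiE)
        · by_contra hji
          exact hBE (eq_of_two hl hBf.le hE.le hji h1 hiB h2 hiE)
      · rintro rfl
        exact ⟨Or.inl hiA, hiE⟩
    rw [this, Finset.card_singleton]
  have hcard1 := Finset.card_union_add_card_inter (thr l A) (thr l B)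
  have hcard2 := Finset.card_union_add_card_inter (thr l A ∪ thr l B) (thr l E)
  rw [hun, hint2, Finset.card_univ, Fintype.card_fin] at hcard2
  rw [hint1] at hcard1
  have hk : k + 1 = a + b + c + 1 := by omega
  -- points with three lines
  have hthree : ∀ W : Submodule ℂ V3, Module.finrank ℂ W ≤ 2 → W ≠ A → W ≠ B → W ≠ E →
      3 ≤ (thr l W).card → (thr l W).card = 3 ∧ i ∉ thr l W ∧ (thr l W ∩ thr l A).Nonempty ∧
        (thr l W ∩ thr l B).Nonempty ∧ (thr l W ∩ thr l E).Nonempty := by
    intro W hW hWA hWB hWE h3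
    have h1 := card_inter_le hl hW hA.le hWA
    have h2 := card_inter_le hl hW hBf.le hWB
    have h3' := card_inter_le hl hW hE.le hWE
    have h4 : thr l W ⊆ (thr l W ∩ thr l A) ∪ (thr l W ∩ thr l B) ∪ (thr l W ∩ thr l E) := by
      rw [← Finset.inter_union_distrib_left, ← Finset.inter_union_distrib_left, hun,
        Finset.inter_univ]
    have h5 := Finset.card_le_card h4
    have h6 := Finset.card_union_le ((thr l W ∩ thr l A) ∪ (thr l W ∩ thr l B))
      (thr l W ∩ thr l E)
    have h7 := Finset.card_union_le (thr l W ∩ thr l A) (thr l W ∩ thr l B)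
    refine ⟨by omega, ?_, ?_, ?_, ?_⟩
    · intro hiW
      have e1 : thr l W ∩ thr l A = {i} := by
        apply Finset.eq_singleton_iff_unique_mem.2
        refine ⟨Finset.mem_inter.2 ⟨hiW, hiA'⟩, fun x hx => ?_⟩
        exact Finset.card_le_one.1 h1 x hx i (Finset.mem_inter.2 ⟨hiW, hiA'⟩)
      have e2 : thr l W ∩ thr l B = {i} := by
        apply Finset.eq_singleton_iff_unique_mem.2
        refine ⟨Finset.mem_inter.2 ⟨hiW, hiB'⟩, fun x hx => ?_⟩
        exact Finset.card_le_one.1 h2 x hx i (Finset.mem_inter.2 ⟨hiW, hiB'⟩)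
      have e3 : thr l W ∩ thr l E = {i} := by
        apply Finset.eq_singleton_iff_unique_mem.2
        refine ⟨Finset.mem_inter.2 ⟨hiW, hiE'⟩, fun x hx => ?_⟩
        exact Finset.card_le_one.1 h3' x hx i (Finset.mem_inter.2 ⟨hiW, hiE'⟩)
      rw [e1, e2, e3, Finset.union_self, Finset.union_self, Finset.card_singleton] at h5
      omega
    · rw [← Finset.card_pos]
      omega
    · rw [← Finset.card_pos]
      omega
    · rw [← Finset.card_pos]
      omega
  -- the set of special points
  set T : Finset (Submodule ℂ V3) :=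
    (Finset.univ.image fun x : Fin (2 * k) × Fin (2 * k) => pt l x.1 x.2).filter
      (fun W => Module.finrank ℂ W = 2 ∧ C ∈ IW W ∧ W ≠ A ∧ W ≠ B ∧ 3 ≤ (thr l W).card) with hT
  have hTmem : ∀ W, W ∈ T ↔
      Module.finrank ℂ W = 2 ∧ C ∈ IW W ∧ W ≠ A ∧ W ≠ B ∧ 3 ≤ (thr l W).card := by
    intro W
    rw [hT, Finset.mem_filter]
    constructor
    · exact fun h => h.2
    · intro h
      refine ⟨?_, h⟩
      obtain ⟨x, hx, y, hy, hxy⟩ := Finset.one_lt_card.1 (by omega : 1 < (thr l W).card)
      rw [mem_thr] at hx hy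
      exact Finset.mem_image.2 ⟨(x, y), Finset.mem_univ _, (eq_pt h.1.le (hl x y hxy) hx hy).symm⟩
  have hTE : ∀ W ∈ T, W ≠ E := by
    intro W hW h
    rw [h] at hW
    exact hCE ((hTmem E).1 hW).2.1
  have hlne : ∀ j, l j ≠ 0 := by
    intro j
    by_cases hji : j = i
    · obtain ⟨x, hx, y, hy, hxy⟩ := Finset.one_lt_card.1 (by omega : 1 < (thr l A).card)
      by_cases hxi : x = i
      · rw [hji]
        have : y ≠ i := by rw [← hxi]; exact hxy.symm
        exact (hl i y this.symm).ne_zero 0
      · rw [hji]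
        exact (hl i x (Ne.symm hxi)).ne_zero 0
    · exact (hl j i hji).ne_zero 0
  -- the bound for the number of special points
  have hbound : ∀ A' : Submodule ℂ V3, Module.finrank ℂ A' = 2 → C ∈ IW A' → i ∈ thr l A' →
      (∀ W ∈ T, W ≠ A') → (∀ W ∈ T, (thr l W ∩ thr l A').Nonempty) →
      T.card ≤ (thr l A').card - 1 := by
    intro A' hA' hCA' hiA' hne hnon
    have : Nonempty (Fin (2 * k)) := ⟨i⟩
    choose! f hf using hnon
    have hmaps : ∀ W ∈ T, f W ∈ (thr l A').erase i := by
      intro W hW
      have h1 := hf W hW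
      rw [Finset.mem_inter] at h1
      rw [Finset.mem_erase]
      refine ⟨?_, h1.2⟩
      intro h
      have h2 := (hTmem W).1 hW
      have h3 := (hthree W h2.1.le h2.2.2.1 h2.2.2.2.1 (hTE W hW) h2.2.2.2.2).2.1
      rw [← h] at h3
      exact h3 h1.1
    have hinj : ∀ W ∈ T, ∀ W' ∈ T, f W = f W' → W = W' := by
      intro W hW W' hW' hff
      by_contra hWW
      have h1 := hf W hW
      have h2 := hf W' hW'
      rw [Finset.mem_inter, mem_thr, mem_thr] at h1 h2
      rw [← hff] at h2
      have h3 := hB.1 C 2 hC (l (f W)) (hlne _) (hNice.1 _ (hlne _)) {A', W, W'} (by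
        intro X hX
        simp only [Finset.mem_insert, Finset.mem_singleton] at hX
        rcases hX with rfl | rfl | rfl
        · exact ⟨hA', h1.2, hCA'⟩
        · exact ⟨((hTmem X).1 hW).1, h1.1, ((hTmem X).1 hW).2.1⟩
        · exact ⟨((hTmem X).1 hW').1, h2.1, ((hTmem X).1 hW').2.1⟩)
      rw [Finset.card_eq_three.2 ⟨A', W, W', (hne W hW).symm, (hne W' hW').symm, hWW, rfl⟩] at h3
      omega
    have h4 := Finset.card_le_card_of_injOn f hmaps (fun x hx y hy => hinj x hx y hy)
    rwa [Finset.card_erase_of_mem hiA'] at h4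
  have hTA : T.card ≤ 2 * a := by
    have := hbound A hA hCA hiA' (fun W hW => ((hTmem W).1 hW).2.2.1) (fun W hW => by
      have h2 := (hTmem W).1 hW
      exact (hthree W h2.1.le h2.2.2.1 h2.2.2.2.1 (hTE W hW) h2.2.2.2.2).2.2.1)
    omega
  have hTB : T.card ≤ 2 * b := by
    have := hbound B hBf hCB hiB' (fun W hW => ((hTmem W).1 hW).2.2.2.1) (fun W hW => by
      have h2 := (hTmem W).1 hW
      exact (hthree W h2.1.le h2.2.2.1 h2.2.2.2.1 (hTE W hW) h2.2.2.2.2).2.2.2.1)
    omega
  by_cases hcase : c = 1 ∧ T.Nonempty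
  · -- three points
    right
    obtain ⟨hc1, X, hX⟩ := hcase
    have hX' := (hTmem X).1 hX
    obtain ⟨-, hiX, -, -, h, hh⟩ :=
      hthree X hX'.1.le hX'.2.2.1 hX'.2.2.2.1 (hTE X hX) hX'.2.2.2.2
    rw [Finset.mem_inter] at hh
    have hhi : h ≠ i := by
      rintro rfl
      exact hiX hh.1
    have hthrE : ∀ j, l j ∈ E → j = i ∨ j = h := by
      intro j hj
      by_contra hcon
      push Not at hcon
      have h1 : ({i, h, j} : Finset (Fin (2 * k))) ⊆ thr l E := by
        intro x hx
        simp only [Finset.mem_insert, Finset.mem_singleton] at hx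
        rcases hx with rfl | rfl | rfl
        · exact hiE'
        · exact hh.2
        · exact (mem_thr l).2 hj
      have h2 := Finset.card_le_card h1
      rw [Finset.card_eq_three.2 ⟨i, h, j, hhi.symm, hcon.1.symm, hcon.2.symm, rfl⟩] at h2
      omega
    refine ⟨A, B, X, hAB, hX'.2.2.1.symm, hX'.2.2.2.1.symm, hA, hBf, hX'.1, hCA, hCB, hX'.2.1, ?_⟩
    intro j
    rcases hall j with hj | hj | hj
    · exact Or.inl hj
    · exact Or.inr (Or.inl hj)
    · rcases hthrE j hj with rfl | rfl
      · exact Or.inl hiA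
      · exact Or.inr (Or.inr ((mem_thr l).1 hh.1))
  · -- the adjoint form
    left
    have hct : c = 1 → T.card = 0 := by
      intro h
      rw [Finset.card_eq_zero]
      by_contra hne
      exact hcase ⟨h, Finset.nonempty_iff_ne_empty.2 hne⟩
    let WW : Fin 3 ⊕ T → Submodule ℂ V3 := Sum.elim ![A, B, E] (fun W => W.1)
    let mm : Fin 3 ⊕ T → ℕ := Sum.elim ![a - 1, b - 1, c - 2] (fun _ => 1)
    obtain ⟨Q, hQ0, hQh, hQm⟩ := hD (Fin 3 ⊕ T) WW mm (a + b + c - 3) (by
        rintro (x | x)
        · fin_cases x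
          · exact hA
          · exact hBf
          · exact hE
        · exact ((hTmem _).1 x.2).1) (by
      rw [Fintype.sum_sum_type, Fin.sum_univ_three]
      have e1 : ∑ x : T, (mm (Sum.inr x) + 1).choose 2 = T.card := by
        have : ∀ x : T, (mm (Sum.inr x) + 1).choose 2 = 1 := fun x => rfl
        rw [Finset.sum_congr rfl (fun x _ => this x), Finset.sum_const, smul_eq_mul, mul_one,
          Finset.card_univ, Fintype.card_coe]
      rw [e1]
      have h := cond_lt (α := a - 1) (β := b - 1) (c := c) (t := T.card) (by omega) (by omega)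
        (by omega) hct
      have e2 : a + b + c - 3 + 2 = a - 1 + (b - 1) + c + 1 := by omega
      rw [e2]
      exact h)
    refine ⟨by omega, lin (l i) * Q, mul_ne_zero (lin_ne_zero (hlne i)) hQ0, ?_, ?_⟩
    · have h1 := (lin_homog (l i)).mul hQh
      have e : 1 + (a + b + c - 3) = k - 2 := by omega
      rwa [e] at h1
    · intro W hW
      by_cases hmu : 4 ≤ mu C l W
      · by_cases hWA : W = A
        · subst hWA
          have e : mu C l W / 2 - 1 ≤ 1 + (a - 1) := by
            unfold mu
            rw [if_pos hCA]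
            omega
          apply Ideal.pow_le_pow_right e
          rw [pow_add, pow_one]
          exact Ideal.mul_mem_mul (lin_mem_IW hiA) (hQm (Sum.inl 0))
        · by_cases hWB : W = B
          · subst hWB
            have e : mu C l W / 2 - 1 ≤ 1 + (b - 1) := by
              unfold mu
              rw [if_pos hCB]
              omega
            apply Ideal.pow_le_pow_right e
            rw [pow_add, pow_one]
            exact Ideal.mul_mem_mul (lin_mem_IW hiB) (hQm (Sum.inl 1))
          · by_cases hWE : W = E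
            · subst hWE
              have e : mu C l W / 2 - 1 ≤ 1 + (c - 2) := by
                unfold mu
                split_ifs <;> omega
              apply Ideal.pow_le_pow_right e
              rw [pow_add, pow_one]
              exact Ideal.mul_mem_mul (lin_mem_IW hiE) (hQm (Sum.inl 2))
            · have h6 : mu C l W ≤ (thr l W).card + 1 := by
                unfold mu
                split_ifs <;> omega
              have h7 := hthree W hW hWA hWB hWE (by omega)
              have hCW : C ∈ IW W := by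
                by_contra hcon
                unfold mu at hmu
                rw [if_neg hcon] at hmu
                omega
              have hW2 : Module.finrank ℂ W = 2 := by
                obtain ⟨x, hx, y, hy, hxy⟩ :=
                  Finset.one_lt_card.1 (by omega : 1 < (thr l W).card)
                rw [mem_thr] at hx hy
                rw [eq_pt hW (hl x y hxy) hx hy]
                exact finrank_pt (hl x y hxy)
              have hWT : W ∈ T := (hTmem W).2 ⟨hW2, hCW, hWA, hWB, by omega⟩
              have e : mu C l W / 2 - 1 ≤ 1 := by omega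
              apply Ideal.pow_le_pow_right e
              rw [pow_one]
              apply Ideal.mul_mem_left
              have := hQm (Sum.inr ⟨W, hWT⟩)
              rwa [show mm (Sum.inr ⟨W, hWT⟩) = 1 from rfl, pow_one] at this
      · have h5 : mu C l W / 2 - 1 = 0 := by omega
        rw [h5, pow_zero, Ideal.one_eq_top]
        trivial

end Pool.Agent.J4H56.LC
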