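import Pool.Agent.J4H56.LC.Cubic

/-! Project LC, stage 2 (helper13): job QUAD. -/

set_option autoImplicit false

open MvPolynomial

namespace Pool.Agent.J4H56.LC

open Pool.Agent.J4H13.LA Pool.Agent.J4H13.LC Pool.Agent.J4H64.LC

lemma span_of_pair {W : Submodule ℂ V3} (hW : Module.finrank ℂ W = 2) {u v : V3}
    (h : LinearIndependent ℂ ![u, v]) (hu : u ∈ W) (hv : v ∈ W) :
    W = Submodule.span ℂ {u, v} := by
  have := eq_pt (l := ![u, v]) (i := 0) (j := 1) hW.le h hu hv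
  exact this

/-- The seven lines of a complete quadrilateral: the core. -/
lemma quad_core {n : ℕ} {l : Fin n → V3} (hl : ∀ i j, i ≠ j → LinearIndependent ℂ ![l i, l j])
    {Q : P3} (hQ : Q.IsHomogeneous 3) {A B E P₁ P₂ P₃ : Submodule ℂ V3}
    (fA : Module.finrank ℂ A = 2) (fB : Module.finrank ℂ B = 2) (fE : Module.finrank ℂ E = 2)
    (f1 : Module.finrank ℂ P₁ = 2) (f2 : Module.finrank ℂ P₂ = 2) (f3 : Module.finrank ℂ P₃ = 2)
    (cA : Q ∈ IW A) (cB : Q ∈ IW B) (cE : Q ∈ IW E) (c1 : Q ∈ IW P₁) (c2 : Q ∈ IW P₂)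
    (c3 : Q ∈ IW P₃) {i a₁ a₂ b₁ b₂ e₁ e₂ : Fin n}
    (iA : l i ∈ A) (a1A : l a₁ ∈ A) (a2A : l a₂ ∈ A) (iB : l i ∈ B) (b1B : l b₁ ∈ B)
    (b2B : l b₂ ∈ B) (iE : l i ∈ E) (e1E : l e₁ ∈ E) (e2E : l e₂ ∈ E)
    (nia : i ≠ a₁) (nib : i ≠ b₂) (nie : i ≠ e₁) (nae : a₁ ≠ e₁) (nbe : b₂ ≠ e₁) (nab : a₁ ≠ b₂)
    (nee : e₁ ≠ e₂) (nia2 : i ≠ a₂) (nib1 : i ≠ b₁)
    (a1P : l a₁ ∈ P₁) (b1P : l b₁ ∈ P₁) (e1P : l e₁ ∈ P₁)
    (a2P : l a₂ ∈ P₂) (b2P : l b₂ ∈ P₂) (e1P2 : l e₁ ∈ P₂)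
    (a1P3 : l a₁ ∈ P₃) (b2P3 : l b₂ ∈ P₃) (e2P : l e₂ ∈ P₃)
    (nP1A : P₁ ≠ A) (nP3A : P₃ ≠ A) (nP2B : P₂ ≠ B) (nP3E : P₃ ≠ E)
    (hprod : ∏ j, lin (l j) = lin (l i) * (lin (l a₁) * lin (l a₂)) * (lin (l b₁) * lin (l b₂)) *
      (lin (l e₁) * lin (l e₂))) : Enr Q l := by
  -- the basis
  have hnot : l e₁ ∉ P₃ := fun h => nP3E (eq_of_two hl f3.le fE.le nee h e2P e1E e2E)
  have hm' : LinearIndependent ℂ ![l a₁, l b₂, l e₁] := by
    rw [Fintype.linearIndependent_iff]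
    intro c hc
    rw [Fin.sum_univ_three] at hc
    change c 0 • l a₁ + c 1 • l b₂ + c 2 • l e₁ = 0 at hc
    have h2 : c 2 = 0 := by
      by_contra h2
      apply hnot
      have : l e₁ = (c 2)⁻¹ • (-(c 0 • l a₁ + c 1 • l b₂)) := by
        rw [← eq_neg_of_add_eq_zero_right hc, smul_smul, inv_mul_cancel₀ h2, one_smul]
      rw [this]
      exact P₃.smul_mem _ (P₃.neg_mem (P₃.add_mem (P₃.smul_mem _ a1P3) (P₃.smul_mem _ b2P3)))
    rw [h2, zero_smul, add_zero] at hc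
    have h3 := LinearIndependent.pair_iff.1 (hl a₁ b₂ nab) (c 0) (c 1) hc
    intro j
    fin_cases j
    · exact h3.1
    · exact h3.2
    · exact h2
  obtain ⟨c, hc⟩ := exists_coeffs hm' (l i)
  change l i = c 0 • l a₁ + c 1 • l b₂ + c 2 • l e₁ at hc
  have hα : c 0 ≠ 0 := by
    intro h
    apply nP2B
    refine eq_of_two hl f2.le fB.le nib ?_ b2P iB b2B
    rw [hc, h, zero_smul, zero_add]
    exact P₂.add_mem (P₂.smul_mem _ b2P) (P₂.smul_mem _ e1P2)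
  have hβ : c 1 ≠ 0 := by
    intro h
    apply nP1A
    refine eq_of_two hl f1.le fA.le nia ?_ a1P iA a1A
    rw [hc, h, zero_smul, add_zero]
    exact P₁.add_mem (P₁.smul_mem _ a1P) (P₁.smul_mem _ e1P)
  have hγ : c 2 ≠ 0 := by
    intro h
    apply nP3A
    refine eq_of_two hl f3.le fA.le nia ?_ a1P3 iA a1A
    rw [hc, h, zero_smul, add_zero]
    exact P₃.add_mem (P₃.smul_mem _ a1P3) (P₃.smul_mem _ b2P3)
  set m0 : V3 := c 0 • l a₁ with hm0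
  set m1 : V3 := c 1 • l b₂ with hm1
  set m2 : V3 := c 2 • l e₁ with hm2
  have ea : l a₁ = (c 0)⁻¹ • m0 := by rw [hm0, smul_smul, inv_mul_cancel₀ hα, one_smul]
  have eb : l b₂ = (c 1)⁻¹ • m1 := by rw [hm1, smul_smul, inv_mul_cancel₀ hβ, one_smul]
  have ee : l e₁ = (c 2)⁻¹ • m2 := by rw [hm2, smul_smul, inv_mul_cancel₀ hγ, one_smul]
  have hli : ∀ x y z : ℂ, x • m0 + y • m1 + z • m2 = 0 → x = 0 ∧ y = 0 ∧ z = 0 := by
    intro x y z h
    have h1 := Fintype.linearIndependent_iff.1 hm' ![x * c 0, y * c 1, z * c 2] (by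
      rw [Fin.sum_univ_three]
      change (x * c 0) • l a₁ + (y * c 1) • l b₂ + (z * c 2) • l e₁ = 0
      rw [mul_smul, mul_smul, mul_smul]
      exact h)
    have h2 : x * c 0 = 0 := h1 0
    have h3 : y * c 1 = 0 := h1 1
    have h4 : z * c 2 = 0 := h1 2
    exact ⟨(mul_eq_zero.1 h2).resolve_right hα, (mul_eq_zero.1 h3).resolve_right hβ,
      (mul_eq_zero.1 h4).resolve_right hγ⟩
  have hm : LinearIndependent ℂ ![m0, m1, m2] := by
    rw [Fintype.linearIndependent_iff]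
    intro d hd
    rw [Fin.sum_univ_three] at hd
    obtain ⟨h1, h2, h3⟩ := hli (d 0) (d 1) (d 2) hd
    intro j
    fin_cases j
    · exact h1
    · exact h2
    · exact h3
  -- the points
  have sA : A ≤ Submodule.span ℂ {m0, m1 + m2} := by
    rw [span_of_pair fA (hl i a₁ nia) iA a1A, Submodule.span_le]
    rintro x (rfl | hx)
    · exact Submodule.mem_span_pair.2 ⟨1, 1, by rw [hc]; module⟩
    · rw [Set.mem_singleton_iff] at hx
      exact Submodule.mem_span_pair.2 ⟨(c 0)⁻¹, 0, by rw [hx, ea]; module⟩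
  have sB : B ≤ Submodule.span ℂ {m1, m0 + m2} := by
    rw [span_of_pair fB (hl i b₂ nib) iB b2B, Submodule.span_le]
    rintro x (rfl | hx)
    · exact Submodule.mem_span_pair.2 ⟨1, 1, by rw [hc]; module⟩
    · rw [Set.mem_singleton_iff] at hx
      exact Submodule.mem_span_pair.2 ⟨(c 1)⁻¹, 0, by rw [hx, eb]; module⟩
  have sE : E ≤ Submodule.span ℂ {m2, m0 + m1} := by
    rw [span_of_pair fE (hl i e₁ nie) iE e1E, Submodule.span_le]
    rintro x (rfl | hx)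
    · exact Submodule.mem_span_pair.2 ⟨1, 1, by rw [hc]; module⟩
    · rw [Set.mem_singleton_iff] at hx
      exact Submodule.mem_span_pair.2 ⟨(c 2)⁻¹, 0, by rw [hx, ee]; module⟩
  have s1 : P₁ ≤ Submodule.span ℂ {m0, m2} := by
    rw [span_of_pair f1 (hl a₁ e₁ nae) a1P e1P, Submodule.span_le]
    rintro x (rfl | hx)
    · exact Submodule.mem_span_pair.2 ⟨(c 0)⁻¹, 0, by rw [ea]; module⟩
    · rw [Set.mem_singleton_iff] at hx
      exact Submodule.mem_span_pair.2 ⟨0, (c 2)⁻¹, by rw [hx, ee]; module⟩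
  have s2 : P₂ ≤ Submodule.span ℂ {m1, m2} := by
    rw [span_of_pair f2 (hl b₂ e₁ nbe) b2P e1P2, Submodule.span_le]
    rintro x (rfl | hx)
    · exact Submodule.mem_span_pair.2 ⟨(c 1)⁻¹, 0, by rw [eb]; module⟩
    · rw [Set.mem_singleton_iff] at hx
      exact Submodule.mem_span_pair.2 ⟨0, (c 2)⁻¹, by rw [hx, ee]; module⟩
  have s3 : P₃ ≤ Submodule.span ℂ {m0, m1} := by
    rw [span_of_pair f3 (hl a₁ b₂ nab) a1P3 b2P3, Submodule.span_le]
    rintro x (rfl | hx)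
    · exact Submodule.mem_span_pair.2 ⟨(c 0)⁻¹, 0, by rw [ea]; module⟩
    · rw [Set.mem_singleton_iff] at hx
      exact Submodule.mem_span_pair.2 ⟨0, (c 1)⁻¹, by rw [hx, eb]; module⟩
  -- the three remaining lines
  obtain ⟨t, ht, ht0⟩ : ∃ t : ℂ, l a₂ = t • (m1 + m2) ∧ t ≠ 0 := by
    obtain ⟨s, t, h1⟩ := Submodule.mem_span_pair.1 (sA a2A)
    obtain ⟨s', t', h2⟩ := Submodule.mem_span_pair.1 (s2 a2P)
    have h3 : s • m0 + (t - s') • m1 + (t - t') • m2 = 0 := by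
      have : s • m0 + t • (m1 + m2) - (s' • m1 + t' • m2) = 0 := by rw [h1, h2, sub_self]
      rw [← this]
      module
    have h4 := (hli _ _ _ h3).1
    rw [h4, zero_smul, zero_add] at h1
    refine ⟨t, h1.symm, ?_⟩
    rintro rfl
    rw [zero_smul] at h1
    exact (hl a₂ i nia2.symm).ne_zero 0 h1.symm
  obtain ⟨t', ht', ht0'⟩ : ∃ t : ℂ, l b₁ = t • (m0 + m2) ∧ t ≠ 0 := by
    obtain ⟨s, t, h1⟩ := Submodule.mem_span_pair.1 (sB b1B)
    obtain ⟨s', t', h2⟩ := Submodule.mem_span_pair.1 (s1 b1P)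
    have h3 : (t - s') • m0 + s • m1 + (t - t') • m2 = 0 := by
      have : s • m1 + t • (m0 + m2) - (s' • m0 + t' • m2) = 0 := by rw [h1, h2, sub_self]
      rw [← this]
      module
    have h4 := (hli _ _ _ h3).2.1
    rw [h4, zero_smul, zero_add] at h1
    refine ⟨t, h1.symm, ?_⟩
    rintro rfl
    rw [zero_smul] at h1
    exact (hl b₁ i nib1.symm).ne_zero 0 h1.symm
  obtain ⟨t'', ht'', ht0''⟩ : ∃ t : ℂ, l e₂ = t • (m0 + m1) ∧ t ≠ 0 := by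
    obtain ⟨s, t, h1⟩ := Submodule.mem_span_pair.1 (sE e2E)
    obtain ⟨s', t', h2⟩ := Submodule.mem_span_pair.1 (s3 e2P)
    have h3 : (t - s') • m0 + (t - t') • m1 + s • m2 = 0 := by
      have : s • m2 + t • (m0 + m1) - (s' • m0 + t' • m1) = 0 := by rw [h1, h2, sub_self]
      rw [← this]
      module
    have h4 := (hli _ _ _ h3).2.2
    rw [h4, zero_smul, zero_add] at h1
    refine ⟨t, h1.symm, ?_⟩
    rintro rfl
    rw [zero_smul] at h1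
    exact (hl e₂ e₁ nee.symm).ne_zero 0 h1.symm
  obtain ⟨a, b, e, μ, hcub⟩ := cubic_quadrilateral hm hQ sA sB sE s1 s2 s3 cA cB cE c1 c2 c3
  refine ⟨![m0, m1, m2], hm, a, b, e, μ, (c 0)⁻¹ * (c 1)⁻¹ * (c 2)⁻¹ * t * t' * t'', ?_, hcub, ?_⟩
  · exact mul_ne_zero (mul_ne_zero (mul_ne_zero (mul_ne_zero (mul_ne_zero (inv_ne_zero hα)
      (inv_ne_zero hβ)) (inv_ne_zero hγ)) ht0) ht0') ht0''
  · rw [hprod, ht, ht', ht'', ea, eb, ee, hc]
    change _ = _ * sev (lin m0) (lin m1) (lin m2)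
    unfold sev
    simp only [lin_add, lin_smul, C_mul]
    ring

/-- combinatorics of three triples at distances at least two -/
lemma bool_cases : ∀ s t u s' t' u' : Bool, ¬ (s = true ∧ t = true) → ¬ (s = true ∧ u = true) →
    ¬ (t = true ∧ u = true) → ¬ (s' = true ∧ t' = true) → ¬ (s' = true ∧ u' = true) →
    ¬ (t' = true ∧ u' = true) → ¬ (s = s' ∧ t = t') → ¬ (s = s' ∧ u = u') →
    ¬ (t = t' ∧ u = u') →
    (s = true ∧ t = false ∧ u = false ∧ s' = false ∧ t' = true ∧ u' = false) ∨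
    (s = true ∧ t = false ∧ u = false ∧ s' = false ∧ t' = false ∧ u' = true) ∨
    (s = false ∧ t = true ∧ u = false ∧ s' = true ∧ t' = false ∧ u' = false) ∨
    (s = false ∧ t = true ∧ u = false ∧ s' = false ∧ t' = false ∧ u' = true) ∨
    (s = false ∧ t = false ∧ u = true ∧ s' = true ∧ t' = false ∧ u' = false) ∨
    (s = false ∧ t = false ∧ u = true ∧ s' = false ∧ t' = true ∧ u' = false) := by
  intro s t u s' t' u'
  cases s <;> cases t <;> cases u <;> cases s' <;> cases t' <;> cases u' <;> simp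

lemma third {n : ℕ} {s : Finset (Fin n)} (hs : s.card = 3) {i a : Fin n} (hi : i ∈ s) (ha : a ∈ s)
    (hia : i ≠ a) : ∃ b ∈ s, i ≠ b ∧ a ≠ b ∧ ∀ x ∈ s, x = i ∨ x = a ∨ x = b := by
  have h1 : ((s.erase i).erase a).card = 1 := by
    rw [Finset.card_erase_of_mem (Finset.mem_erase.2 ⟨hia.symm, ha⟩),
      Finset.card_erase_of_mem hi, hs]
  obtain ⟨b, hb⟩ := Finset.card_eq_one.1 h1
  have h2 : b ∈ (s.erase i).erase a := by
    rw [hb]
    exact Finset.mem_singleton_self b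
  rw [Finset.mem_erase, Finset.mem_erase] at h2
  refine ⟨b, h2.2.2, Ne.symm h2.2.1, Ne.symm h2.1, fun x hx => ?_⟩
  by_contra hcon
  push Not at hcon
  have h3 : x ∈ (s.erase i).erase a := by
    rw [Finset.mem_erase, Finset.mem_erase]
    exact ⟨hcon.2.1, hcon.1, hx⟩
  rw [hb, Finset.mem_singleton] at h3
  exact hcon.2.2 h3

theorem t_QUAD : S_QUAD := by
  classical
  intro _ Q hQ k l hl A B E hA hBf hE hAB hAE hBE hCA hCB hCE h3A h3B h3E hi hall hT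
  obtain ⟨i, hiA, hiB, hiE⟩ := hi
  have hiA' : i ∈ thr l A := (mem_thr l).2 hiA
  have hiB' : i ∈ thr l B := (mem_thr l).2 hiB
  have hiE' : i ∈ thr l E := (mem_thr l).2 hiE
  have hun : thr l A ∪ thr l B ∪ thr l E = Finset.univ := by
    apply Finset.eq_univ_of_forall
    intro j
    rw [Finset.mem_union, Finset.mem_union, mem_thr, mem_thr, mem_thr]
    rcases hall j with h | h | h
    · exact Or.inl (Or.inl h)
    · exact Or.inl (Or.inr h)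
    · exact Or.inr h
  -- points with three lines
  have hthree : ∀ W : Submodule ℂ V3, Module.finrank ℂ W = 2 → W ≠ A → W ≠ B → W ≠ E →
      (thr l W).card = 3 → i ∉ thr l W ∧ (∃ x, l x ∈ W ∧ x ∈ thr l A) ∧
        (∃ x, l x ∈ W ∧ x ∈ thr l B) ∧ ∃ x, l x ∈ W ∧ x ∈ thr l E := by
    intro W hW hWA hWB hWE h3
    have h1 := card_inter_le hl hW.le hA.le hWA
    have h2 := card_inter_le hl hW.le hBf.le hWB
    have h3' := card_inter_le hl hW.le hE.le hWE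
    have h4 : thr l W ⊆ (thr l W ∩ thr l A) ∪ (thr l W ∩ thr l B) ∪ (thr l W ∩ thr l E) := by
      rw [← Finset.inter_union_distrib_left, ← Finset.inter_union_distrib_left, hun,
        Finset.inter_univ]
    have h5 := Finset.card_le_card h4
    have h6 := Finset.card_union_le ((thr l W ∩ thr l A) ∪ (thr l W ∩ thr l B))
      (thr l W ∩ thr l E)
    have h7 := Finset.card_union_le (thr l W ∩ thr l A) (thr l W ∩ thr l B)
    have hne : ∀ s : Finset (Fin (2 * k + 1)), 0 < (thr l W ∩ s).card →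
        ∃ x, l x ∈ W ∧ x ∈ s := by
      intro s hs
      obtain ⟨x, hx⟩ := Finset.card_pos.1 hs
      rw [Finset.mem_inter, mem_thr] at hx
      exact ⟨x, hx⟩
    refine ⟨?_, hne _ (by omega), hne _ (by omega), hne _ (by omega)⟩
    intro hiW
    have e1 : thr l W ∩ thr l A = {i} := by
      apply Finset.eq_singleton_iff_unique_mem.2
      refine ⟨Finset.mem_inter.2 ⟨hiW, hiA'⟩, fun x hx => ?_⟩
      exact Finset.card_le_one.1 h1 x hx i (Finset.mem_inter.2 ⟨hiW, hiA'⟩)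
    have e2 : thr l W ∩ thr l B = {i} := by
      apply Finset.eq_singleton_iff_unique_mem.2
      refine ⟨Finset.mem_inter.2 ⟨hiW, hiB'⟩, fun x hx => ?_⟩
      exact Finset.card_le_one.1 h2 x hx i (Finset.mem_inter.2 ⟨hiW, hiB'⟩)
    have e3 : thr l W ∩ thr l E = {i} := by
      apply Finset.eq_singleton_iff_unique_mem.2
      refine ⟨Finset.mem_inter.2 ⟨hiW, hiE'⟩, fun x hx => ?_⟩
      exact Finset.card_le_one.1 h3' x hx i (Finset.mem_inter.2 ⟨hiW, hiE'⟩)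
    rw [e1, e2, e3, Finset.union_self, Finset.union_self, Finset.card_singleton] at h5
    omega
  obtain ⟨T, hTc, hTp⟩ := hT
  obtain ⟨W₁, W₂, W₃, h12, h13, h23, rfl⟩ := Finset.card_eq_three.1 hTc
  obtain ⟨f1, c1, n1A, n1B, n1E, t1⟩ := hTp W₁ (by simp)
  obtain ⟨f2, c2, n2A, n2B, n2E, t2⟩ := hTp W₂ (by simp)
  obtain ⟨f3, c3, n3A, n3B, n3E, t3⟩ := hTp W₃ (by simp)
  obtain ⟨i1, ⟨a₁, a1W, a1A⟩, ⟨b₁, b1W, b1B⟩, e₁, e1W, e1E⟩ := hthree W₁ f1 n1A n1B n1E t1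
  obtain ⟨i2, ⟨x₂, x2W, x2A⟩, ⟨y₂, y2W, y2B⟩, z₂, z2W, z2E⟩ := hthree W₂ f2 n2A n2B n2E t2
  obtain ⟨i3, ⟨x₃, x3W, x3A⟩, ⟨y₃, y3W, y3B⟩, z₃, z3W, z3E⟩ := hthree W₃ f3 n3A n3B n3E t3
  have nin : ∀ {W : Submodule ℂ V3} {x : Fin (2 * k + 1)}, i ∉ thr l W → l x ∈ W → i ≠ x := by
    rintro W x h h' rfl
    exact h ((mem_thr l).2 h')
  obtain ⟨a₂, a2A, nia2, naa, hAall⟩ := third h3A hiA' a1A (nin i1 a1W)
  obtain ⟨b₂, b2B, nib2, nbb, hBall⟩ := third h3B hiB' b1B (nin i1 b1W)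
  obtain ⟨e₂, e2E, nie2, nee, hEall⟩ := third h3E hiE' e1E (nin i1 e1W)
  have nia1 := nin i1 a1W
  have nib1 := nin i1 b1W
  have nie1 := nin i1 e1W
  have hx2 : ∃ s : Bool, x₂ = cond s a₁ a₂ := by
    rcases hAall x₂ x2A with h | h | h
    · exact absurd h.symm (nin i2 x2W)
    · exact ⟨true, h⟩
    · exact ⟨false, h⟩
  have hy2 : ∃ s : Bool, y₂ = cond s b₁ b₂ := by
    rcases hBall y₂ y2B with h | h | h
    · exact absurd h.symm (nin i2 y2W)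
    · exact ⟨true, h⟩
    · exact ⟨false, h⟩
  have hz2 : ∃ s : Bool, z₂ = cond s e₁ e₂ := by
    rcases hEall z₂ z2E with h | h | h
    · exact absurd h.symm (nin i2 z2W)
    · exact ⟨true, h⟩
    · exact ⟨false, h⟩
  have hx3 : ∃ s : Bool, x₃ = cond s a₁ a₂ := by
    rcases hAall x₃ x3A with h | h | h
    · exact absurd h.symm (nin i3 x3W)
    · exact ⟨true, h⟩
    · exact ⟨false, h⟩
  have hy3 : ∃ s : Bool, y₃ = cond s b₁ b₂ := by
    rcases hBall y₃ y3B with h | h | h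
    · exact absurd h.symm (nin i3 y3W)
    · exact ⟨true, h⟩
    · exact ⟨false, h⟩
  have hz3 : ∃ s : Bool, z₃ = cond s e₁ e₂ := by
    rcases hEall z₃ z3E with h | h | h
    · exact absurd h.symm (nin i3 z3W)
    · exact ⟨true, h⟩
    · exact ⟨false, h⟩
  rw [mem_thr] at a1A a2A b1B b2B e1E e2E x2A y2B z2E x3A y3B z3E
  -- lines of different points are different
  have nAB : ∀ {x y : Fin (2 * k + 1)}, i ≠ x → l x ∈ A → l y ∈ B → x ≠ y := by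
    rintro x y hx h1 h2 rfl
    exact hAB (eq_of_two hl hA.le hBf.le hx hiA h1 hiB h2)
  have nAE : ∀ {x y : Fin (2 * k + 1)}, i ≠ x → l x ∈ A → l y ∈ E → x ≠ y := by
    rintro x y hx h1 h2 rfl
    exact hAE (eq_of_two hl hA.le hE.le hx hiA h1 hiE h2)
  have nBE : ∀ {x y : Fin (2 * k + 1)}, i ≠ x → l x ∈ B → l y ∈ E → x ≠ y := by
    rintro x y hx h1 h2 rfl
    exact hBE (eq_of_two hl hBf.le hE.le hx hiB h1 hiE h2)
  obtain ⟨s, rfl⟩ := hx2
  obtain ⟨t, rfl⟩ := hy2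
  obtain ⟨u, rfl⟩ := hz2
  obtain ⟨s', rfl⟩ := hx3
  obtain ⟨t', rfl⟩ := hy3
  obtain ⟨u', rfl⟩ := hz3
  have k1 : ¬ (s = true ∧ t = true) := by
    rintro ⟨rfl, rfl⟩
    exact h12 (eq_of_two hl f1.le f2.le (nAB nia1 a1A b1B) a1W b1W x2W y2W)
  have k2 : ¬ (s = true ∧ u = true) := by
    rintro ⟨rfl, rfl⟩
    exact h12 (eq_of_two hl f1.le f2.le (nAE nia1 a1A e1E) a1W e1W x2W z2W)
  have k3 : ¬ (t = true ∧ u = true) := by
    rintro ⟨rfl, rfl⟩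
    exact h12 (eq_of_two hl f1.le f2.le (nBE nib1 b1B e1E) b1W e1W y2W z2W)
  have k4 : ¬ (s' = true ∧ t' = true) := by
    rintro ⟨rfl, rfl⟩
    exact h13 (eq_of_two hl f1.le f3.le (nAB nia1 a1A b1B) a1W b1W x3W y3W)
  have k5 : ¬ (s' = true ∧ u' = true) := by
    rintro ⟨rfl, rfl⟩
    exact h13 (eq_of_two hl f1.le f3.le (nAE nia1 a1A e1E) a1W e1W x3W z3W)
  have k6 : ¬ (t' = true ∧ u' = true) := by
    rintro ⟨rfl, rfl⟩
    exact h13 (eq_of_two hl f1.le f3.le (nBE nib1 b1B e1E) b1W e1W y3W z3W)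
  have k7 : ¬ (s = s' ∧ t = t') := by
    rintro ⟨rfl, rfl⟩
    exact h23 (eq_of_two hl f2.le f3.le (nAB (nin i2 x2W) x2A y2B) x2W y2W x3W y3W)
  have k8 : ¬ (s = s' ∧ u = u') := by
    rintro ⟨rfl, rfl⟩
    exact h23 (eq_of_two hl f2.le f3.le (nAE (nin i2 x2W) x2A z2E) x2W z2W x3W z3W)
  have k9 : ¬ (t = t' ∧ u = u') := by
    rintro ⟨rfl, rfl⟩
    exact h23 (eq_of_two hl f2.le f3.le (nBE (nin i2 y2W) y2B z2E) y2W z2W y3W z3W)
  -- the product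
  have hprod : ∏ j, lin (l j) = lin (l i) * (lin (l a₁) * lin (l a₂)) *
      (lin (l b₁) * lin (l b₂)) * (lin (l e₁) * lin (l e₂)) := by
    have hnd : [i, a₁, a₂, b₁, b₂, e₁, e₂].Nodup := by
      simp only [List.nodup_cons, List.mem_cons, List.not_mem_nil, or_false, not_or,
        List.nodup_nil, and_true, not_false_eq_true]
      exact ⟨⟨nia1, nia2, nib1, nib2, nie1, nie2⟩,
        ⟨naa, nAB nia1 a1A b1B, nAB nia1 a1A b2B, nAE nia1 a1A e1E, nAE nia1 a1A e2E⟩,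
        ⟨nAB nia2 a2A b1B, nAB nia2 a2A b2B, nAE nia2 a2A e1E, nAE nia2 a2A e2E⟩,
        ⟨nbb, nBE nib1 b1B e1E, nBE nib1 b1B e2E⟩, ⟨nBE nib2 b2B e1E, nBE nib2 b2B e2E⟩, nee⟩
    have huniv : (Finset.univ : Finset (Fin (2 * k + 1))) = [i, a₁, a₂, b₁, b₂, e₁, e₂].toFinset := by
      symm
      apply Finset.eq_univ_of_forall
      intro j
      rw [List.mem_toFinset]
      have hj : j ∈ thr l A ∪ thr l B ∪ thr l E := by
        rw [hun]
        exact Finset.mem_univ j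
      rw [Finset.mem_union, Finset.mem_union] at hj
      simp only [List.mem_cons, List.not_mem_nil, or_false]
      rcases hj with (hj | hj) | hj
      · rcases hAall j hj with h | h | h <;> simp [h]
      · rcases hBall j hj with h | h | h <;> simp [h]
      · rcases hEall j hj with h | h | h <;> simp [h]
    rw [huniv, List.prod_toFinset _ hnd]
    simp only [List.map_cons, List.map_nil, List.prod_cons, List.prod_nil, mul_one]
    ring
  rcases bool_cases s t u s' t' u' k1 k2 k3 k4 k5 k6 k7 k8 k9 with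
    ⟨rfl, rfl, rfl, rfl, rfl, rfl⟩ | ⟨rfl, rfl, rfl, rfl, rfl, rfl⟩ |
    ⟨rfl, rfl, rfl, rfl, rfl, rfl⟩ | ⟨rfl, rfl, rfl, rfl, rfl, rfl⟩ |
    ⟨rfl, rfl, rfl, rfl, rfl, rfl⟩ | ⟨rfl, rfl, rfl, rfl, rfl, rfl⟩
  · -- `W₂ = (a₁ b₂ e₂)`, `W₃ = (a₂ b₁ e₂)`: `(B, E, A)`
    exact quad_core hl hQ hBf hE hA f1 f2 f3 hCB hCE hCA c1 c2 c3 hiB b1B b2B hiE e1E e2E hiA a1A
      a2A nib1 nie2 nia1 (nAB nia1 a1A b1B).symm (nAE nia1 a1A e2E).symm (nBE nib1 b1B e2E) naa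
      nib2 nie1 b1W e1W a1W y2W z2W x2W y3W z3W x3W n1B n3B n2E n3A (by rw [hprod]; ring)
  · -- `W₂ = (a₁ b₂ e₂)`, `W₃ = (a₂ b₂ e₁)`: `(E, B, A)`
    exact quad_core hl hQ hE hBf hA f1 f2 f3 hCE hCB hCA c1 c2 c3 hiE e1E e2E hiB b1B b2B hiA a1A
      a2A nie1 nib2 nia1 (nAE nia1 a1A e1E).symm (nAB nia1 a1A b2B).symm
      (nBE nib2 b2B e1E).symm naa nie2 nib1 e1W b1W a1W z2W y2W x2W z3W y3W x3W n1E n3E n2B n3A
      (by rw [hprod]; ring)
  · -- `W₂ = (a₂ b₁ e₂)`, `W₃ = (a₁ b₂ e₂)`: `(A, E, B)`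
    exact quad_core hl hQ hA hE hBf f1 f2 f3 hCA hCE hCB c1 c2 c3 hiA a1A a2A hiE e1E e2E hiB b1B
      b2B nia1 nie2 nib1 (nAB nia1 a1A b1B) (nBE nib1 b1B e2E).symm (nAE nia1 a1A e2E) nbb
      nia2 nie1 a1W e1W b1W x2W z2W y2W x3W z3W y3W n1A n3A n2E n3B (by rw [hprod]; ring)
  · -- `W₂ = (a₂ b₁ e₂)`, `W₃ = (a₂ b₂ e₁)`: `(E, A, B)`
    exact quad_core hl hQ hE hA hBf f1 f2 f3 hCE hCA hCB c1 c2 c3 hiE e1E e2E hiA a1A a2A hiB b1B
      b2B nie1 nia2 nib1 (nBE nib1 b1B e1E).symm (nAB nia2 a2A b1B) (nAE nia2 a2A e1E).symm nbb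
      nie2 nia1 e1W a1W b1W z2W x2W y2W z3W x3W y3W n1E n3E n2A n3B (by rw [hprod]; ring)
  · -- `W₂ = (a₂ b₂ e₁)`, `W₃ = (a₁ b₂ e₂)`: `(A, B, E)`
    exact quad_core hl hQ hA hBf hE f1 f2 f3 hCA hCB hCE c1 c2 c3 hiA a1A a2A hiB b1B b2B hiE e1E
      e2E nia1 nib2 nie1 (nAE nia1 a1A e1E) (nBE nib2 b2B e1E) (nAB nia1 a1A b2B) nee
      nia2 nib1 a1W b1W e1W x2W y2W z2W x3W y3W z3W n1A n3A n2B n3E (by rw [hprod])
  · -- `W₂ = (a₂ b₂ e₁)`, `W₃ = (a₂ b₁ e₂)`: `(B, A, E)`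
    exact quad_core hl hQ hBf hA hE f1 f2 f3 hCB hCA hCE c1 c2 c3 hiB b1B b2B hiA a1A a2A hiE e1E
      e2E nib1 nia2 nie1 (nBE nib1 b1B e1E) (nAE nia2 a2A e1E) (nAB nia2 a2A b1B).symm nee
      nib2 nia1 b1W a1W e1W y2W x2W z2W y3W x3W z3W n1B n3B n2A n3E (by rw [hprod]; ring)

end Pool.Agent.J4H56.LC
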