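import Pool.Agent.J4H56.LC.Two3

/-! Project LC, stage 2 (helper13): job THREE3. -/

set_option autoImplicit false

open MvPolynomial

namespace Pool.Agent.J4H56.LC

open Pool.Agent.J4H13.LA Pool.Agent.J4H13.LC

lemma two_choose' (k : ℕ) : 2 * (k + 1).choose 2 = (k + 1) * k := by
  rw [Nat.choose_two_right, Nat.add_sub_cancel]
  apply Nat.two_mul_div_two_of_even
  rw [mul_comm]
  exact Nat.even_mul_succ_self k

/-- the number of conditions -/
lemma cond_lt3 {α β γ t : ℕ} (ht1 : t ≤ 4 * (α + 1)) (ht2 : t ≤ 4 * (β + 1))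
    (ht3 : t ≤ 4 * (γ + 1)) (h0 : α = 0 → β = 0 → γ = 0 → t ≤ 2) :
    (α + 1).choose 2 + (β + 1).choose 2 + (γ + 1).choose 2 + t < (α + β + γ + 2 + 1).choose 2 := by
  have h1 := two_choose' α
  have h2 := two_choose' β
  have h3 := two_choose' γ
  have h4 := two_choose' (α + β + γ + 2)
  have key : t < α * β + α * γ + β * γ + 2 * (α + β + γ) + 3 := by
    rcases Nat.eq_zero_or_pos α with ha | ha
    · subst ha
      rcases Nat.eq_zero_or_pos β with hb | hb
      · subst hb
        rcases Nat.eq_zero_or_pos γ with hc | hc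
        · subst hc
          have := h0 rfl rfl rfl
          omega
        · omega
      · have : 0 ≤ β * γ := Nat.zero_le _
        nlinarith
    · rcases Nat.eq_zero_or_pos β with hb | hb
      · subst hb
        have : 0 ≤ α * γ := Nat.zero_le _
        nlinarith
      · rcases Nat.eq_zero_or_pos γ with hc | hc
        · subst hc
          have : 0 ≤ α * β := Nat.zero_le _
          nlinarith
        · have e1 : α ≤ α * β := Nat.le_mul_of_pos_right _ hb
          have e2 : α ≤ α * γ := Nat.le_mul_of_pos_right _ hc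
          nlinarith
  nlinarith

theorem t_THREE3 : S_THREE3 := by
  classical
  intro hB hD C hC hNice k l hl A B E hA hBf hE hAB hAE hBE hCA hCB hCE h3A h3B h2E hoA hoB hoE
    hi hall
  obtain ⟨i, hiA, hiB, hiE⟩ := hi
  have hiA' : i ∈ thr l A := (mem_thr l).2 hiA
  have hiB' : i ∈ thr l B := (mem_thr l).2 hiB
  have hiE' : i ∈ thr l E := (mem_thr l).2 hiE
  obtain ⟨a, ha⟩ := hoA
  obtain ⟨b, hb⟩ := hoB
  obtain ⟨c, hc⟩ := hoE
  -- the number of lines
  have hun : thr l A ∪ thr l B ∪ thr l E = Finset.univ := by
    apply Finset.eq_univ_of_forall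
    intro j
    rw [Finset.mem_union, Finset.mem_union, mem_thr, mem_thr, mem_thr]
    rcases hall j with h | h | h
    · exact Or.inl (Or.inl h)
    · exact Or.inl (Or.inr h)
    · exact Or.inr h
  have hint1 : (thr l A ∩ thr l B).card = 1 := by
    apply le_antisymm (card_inter_le hl hA.le hBf.le hAB)
    exact Finset.card_pos.2 ⟨i, Finset.mem_inter.2 ⟨hiA', hiB'⟩⟩
  have hint2 : ((thr l A ∪ thr l B) ∩ thr l E).card = 1 := by
    have : (thr l A ∪ thr l B) ∩ thr l E = {i} := by
      ext j
      rw [Finset.mem_inter, Finset.mem_union, Finset.mem_singleton, mem_thr, mem_thr, mem_thr]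
      constructor
      · rintro ⟨h1 | h1, h2⟩
        · by_contra hji
          exact hAE (eq_of_two hl hA.le hE.le hji h1 hiA h2 hiE)
        · by_contra hji
          exact hBE (eq_of_two hl hBf.le hE.le hji h1 hiB h2 hiE)
      · rintro rfl
        exact ⟨Or.inl hiA, hiE⟩
    rw [this, Finset.card_singleton]
  have hcard1 := Finset.card_union_add_card_inter (thr l A) (thr l B)
  have hcard2 := Finset.card_union_add_card_inter (thr l A ∪ thr l B) (thr l E)
  rw [hun, hint2, Finset.card_univ, Fintype.card_fin] at hcard2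
  rw [hint1] at hcard1
  have hk : k = a + b + c := by omega
  -- points with three lines
  have hthree : ∀ W : Submodule ℂ V3, Module.finrank ℂ W ≤ 2 → W ≠ A → W ≠ B → W ≠ E →
      3 ≤ (thr l W).card → (thr l W).card = 3 ∧ i ∉ thr l W ∧ (thr l W ∩ thr l A).Nonempty ∧
        (thr l W ∩ thr l B).Nonempty ∧ (thr l W ∩ thr l E).Nonempty := by
    intro W hW hWA hWB hWE h3
    have h1 := card_inter_le hl hW hA.le hWA
    have h2 := card_inter_le hl hW hBf.le hWB
    have h3' := card_inter_le hl hW hE.le hWE
    have h4 : thr l W ⊆ (thr l W ∩ thr l A) ∪ (thr l W ∩ thr l B) ∪ (thr l W ∩ thr l E) := by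
      rw [← Finset.inter_union_distrib_left, ← Finset.inter_union_distrib_left, hun,
        Finset.inter_univ]
    have h5 := Finset.card_le_card h4
    have h6 := Finset.card_union_le ((thr l W ∩ thr l A) ∪ (thr l W ∩ thr l B))
      (thr l W ∩ thr l E)
    have h7 := Finset.card_union_le (thr l W ∩ thr l A) (thr l W ∩ thr l B)
    refine ⟨by omega, ?_, ?_, ?_, ?_⟩
    · intro hiW
      have e1 : thr l W ∩ thr l A = {i} := by
        apply Finset.eq_singleton_iff_unique_mem.2
        refine ⟨Finset.mem_inter.2 ⟨hiW, hiA'⟩, fun x hx => ?_⟩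
        exact Finset.card_le_one.1 h1 x hx i (Finset.mem_inter.2 ⟨hiW, hiA'⟩)
      have e2 : thr l W ∩ thr l B = {i} := by
        apply Finset.eq_singleton_iff_unique_mem.2
        refine ⟨Finset.mem_inter.2 ⟨hiW, hiB'⟩, fun x hx => ?_⟩
        exact Finset.card_le_one.1 h2 x hx i (Finset.mem_inter.2 ⟨hiW, hiB'⟩)
      have e3 : thr l W ∩ thr l E = {i} := by
        apply Finset.eq_singleton_iff_unique_mem.2
        refine ⟨Finset.mem_inter.2 ⟨hiW, hiE'⟩, fun x hx => ?_⟩
        exact Finset.card_le_one.1 h3' x hx i (Finset.mem_inter.2 ⟨hiW, hiE'⟩)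
      rw [e1, e2, e3, Finset.union_self, Finset.union_self, Finset.card_singleton] at h5
      omega
    · rw [← Finset.card_pos]
      omega
    · rw [← Finset.card_pos]
      omega
    · rw [← Finset.card_pos]
      omega
  -- the set of special points
  set T : Finset (Submodule ℂ V3) :=
    (Finset.univ.image fun x : Fin (2 * k + 1) × Fin (2 * k + 1) => pt l x.1 x.2).filter
      (fun W => Module.finrank ℂ W = 2 ∧ C ∈ IW W ∧ W ≠ A ∧ W ≠ B ∧ W ≠ E ∧
        3 ≤ (thr l W).card) with hT
  have hTmem : ∀ W, W ∈ T ↔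
      Module.finrank ℂ W = 2 ∧ C ∈ IW W ∧ W ≠ A ∧ W ≠ B ∧ W ≠ E ∧ 3 ≤ (thr l W).card := by
    intro W
    rw [hT, Finset.mem_filter]
    constructor
    · exact fun h => h.2
    · intro h
      refine ⟨?_, h⟩
      obtain ⟨x, hx, y, hy, hxy⟩ := Finset.one_lt_card.1 (by omega : 1 < (thr l W).card)
      rw [mem_thr] at hx hy
      exact Finset.mem_image.2 ⟨(x, y), Finset.mem_univ _, (eq_pt h.1.le (hl x y hxy) hx hy).symm⟩
  have hT3 : ∀ W ∈ T, (thr l W).card = 3 ∧ i ∉ thr l W ∧ (thr l W ∩ thr l A).Nonempty ∧
      (thr l W ∩ thr l B).Nonempty ∧ (thr l W ∩ thr l E).Nonempty := by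
    intro W hW
    obtain ⟨h1, -, h2, h3, h4, h5⟩ := (hTmem W).1 hW
    exact hthree W h1.le h2 h3 h4 h5
  have hlne : ∀ j, l j ≠ 0 := by
    intro j
    by_cases hji : j = i
    · obtain ⟨x, hx, y, hy, hxy⟩ := Finset.one_lt_card.1 (by omega : 1 < (thr l A).card)
      by_cases hxi : x = i
      · rw [hji]
        have : y ≠ i := by rw [← hxi]; exact hxy.symm
        exact (hl i y this.symm).ne_zero 0
      · rw [hji]
        exact (hl i x (Ne.symm hxi)).ne_zero 0
    · exact (hl j i hji).ne_zero 0
  -- the bound for the number of special points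
  have hbound : ∀ A' : Submodule ℂ V3, Module.finrank ℂ A' = 2 → C ∈ IW A' → i ∈ thr l A' →
      (∀ W ∈ T, W ≠ A') → (∀ W ∈ T, (thr l W ∩ thr l A').Nonempty) →
      T.card ≤ 2 * ((thr l A').card - 1) := by
    intro A' hA' hCA' hiA' hne hnon
    have : Nonempty (Fin (2 * k + 1)) := ⟨i⟩
    choose! f hf using hnon
    have hmaps : ∀ W ∈ T, f W ∈ (thr l A').erase i := by
      intro W hW
      have h1 := hf W hW
      rw [Finset.mem_inter] at h1
      rw [Finset.mem_erase]
      refine ⟨?_, h1.2⟩
      intro h
      have h3 := (hT3 W hW).2.1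
      rw [← h] at h3
      exact h3 h1.1
    have h4 := Finset.card_le_mul_card_image_of_maps_to hmaps 2 (by
      intro j hj
      have hjA : l j ∈ A' := (mem_thr l).1 (Finset.mem_erase.1 hj).2
      have h5 : A' ∉ T.filter (fun W => f W = j) := by
        rw [Finset.mem_filter]
        rintro ⟨h6, -⟩
        exact hne A' h6 rfl
      have h3 := hB.1 C 3 hC (l j) (hlne _) (hNice.1 _ (hlne _))
        (insert A' (T.filter (fun W => f W = j))) (by
        intro X hX
        rw [Finset.mem_insert, Finset.mem_filter] at hX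
        rcases hX with rfl | ⟨hX, hfX⟩
        · exact ⟨hA', hjA, hCA'⟩
        · have h1 := hf X hX
          rw [Finset.mem_inter, mem_thr, hfX] at h1
          exact ⟨((hTmem X).1 hX).1, h1.1, ((hTmem X).1 hX).2.1⟩)
      rw [Finset.card_insert_of_notMem h5] at h3
      omega)
    rwa [Finset.card_erase_of_mem hiA'] at h4
  have hTA : T.card ≤ 4 * a := by
    have := hbound A hA hCA hiA' (fun W hW => ((hTmem W).1 hW).2.2.1)
      (fun W hW => (hT3 W hW).2.2.1)
    omega
  have hTB : T.card ≤ 4 * b := by
    have := hbound B hBf hCB hiB' (fun W hW => ((hTmem W).1 hW).2.2.2.1)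
      (fun W hW => (hT3 W hW).2.2.2.1)
    omega
  have hTE : T.card ≤ 4 * c := by
    have := hbound E hE hCE hiE' (fun W hW => ((hTmem W).1 hW).2.2.2.2.1)
      (fun W hW => (hT3 W hW).2.2.2.2)
    omega
  by_cases hcase : a = 1 ∧ b = 1 ∧ c = 1 ∧ 3 ≤ T.card
  · -- the quadrilateral
    right
    obtain ⟨ha1, hb1, hc1, hT3'⟩ := hcase
    obtain ⟨T', hT', hT'c⟩ := Finset.exists_subset_card_eq hT3'
    refine ⟨by omega, by omega, by omega, T', hT'c, ?_⟩
    intro W hW
    obtain ⟨h1, h2, h3, h4, h5, -⟩ := (hTmem W).1 (hT' hW)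
    exact ⟨h1, h2, h3, h4, h5, (hT3 W (hT' hW)).1⟩
  · -- the adjoint form
    left
    have hct : a - 1 = 0 → b - 1 = 0 → c - 1 = 0 → T.card ≤ 2 := by
      intro h1 h2 h3
      by_contra h4
      exact hcase ⟨by omega, by omega, by omega, by omega⟩
    let WW : Fin 3 ⊕ T → Submodule ℂ V3 := Sum.elim ![A, B, E] (fun W => W.1)
    let mm : Fin 3 ⊕ T → ℕ := Sum.elim ![a - 1, b - 1, c - 1] (fun _ => 1)
    obtain ⟨Q, hQ0, hQh, hQm⟩ := hD (Fin 3 ⊕ T) WW mm (a + b + c - 2) (by
        rintro (x | x)
        · fin_cases x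
          · exact hA
          · exact hBf
          · exact hE
        · exact ((hTmem _).1 x.2).1) (by
      rw [Fintype.sum_sum_type, Fin.sum_univ_three]
      have e1 : ∑ x : T, (mm (Sum.inr x) + 1).choose 2 = T.card := by
        have : ∀ x : T, (mm (Sum.inr x) + 1).choose 2 = 1 := fun x => rfl
        rw [Finset.sum_congr rfl (fun x _ => this x), Finset.sum_const, smul_eq_mul, mul_one,
          Finset.card_univ, Fintype.card_coe]
      rw [e1]
      have h := cond_lt3 (α := a - 1) (β := b - 1) (γ := c - 1) (t := T.card) (by omega)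
        (by omega) (by omega) hct
      have e2 : a + b + c - 2 + 2 = a - 1 + (b - 1) + (c - 1) + 2 + 1 := by omega
      rw [e2]
      exact h)
    refine ⟨by omega, lin (l i) * Q, mul_ne_zero (lin_ne_zero (hlne i)) hQ0, ?_, ?_⟩
    · have h1 := (lin_homog (l i)).mul hQh
      have e : 1 + (a + b + c - 2) = k - 1 := by omega
      rwa [e] at h1
    · intro W hW
      by_cases hmu : 4 ≤ mu C l W
      · by_cases hWA : W = A
        · subst hWA
          have e : mu C l W / 2 - 1 ≤ 1 + (a - 1) := by
            unfold mu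
            rw [if_pos hCA]
            omega
          apply Ideal.pow_le_pow_right e
          rw [pow_add, pow_one]
          exact Ideal.mul_mem_mul (lin_mem_IW hiA) (hQm (Sum.inl 0))
        · by_cases hWB : W = B
          · subst hWB
            have e : mu C l W / 2 - 1 ≤ 1 + (b - 1) := by
              unfold mu
              rw [if_pos hCB]
              omega
            apply Ideal.pow_le_pow_right e
            rw [pow_add, pow_one]
            exact Ideal.mul_mem_mul (lin_mem_IW hiB) (hQm (Sum.inl 1))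
          · by_cases hWE : W = E
            · subst hWE
              have e : mu C l W / 2 - 1 ≤ 1 + (c - 1) := by
                unfold mu
                rw [if_pos hCE]
                omega
              apply Ideal.pow_le_pow_right e
              rw [pow_add, pow_one]
              exact Ideal.mul_mem_mul (lin_mem_IW hiE) (hQm (Sum.inl 2))
            · have h6 : mu C l W ≤ (thr l W).card + 1 := by
                unfold mu
                split_ifs <;> omega
              have h7 := hthree W hW hWA hWB hWE (by omega)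
              have hCW : C ∈ IW W := by
                by_contra hcon
                unfold mu at hmu
                rw [if_neg hcon] at hmu
                omega
              have hW2 : Module.finrank ℂ W = 2 := by
                obtain ⟨x, hx, y, hy, hxy⟩ :=
                  Finset.one_lt_card.1 (by omega : 1 < (thr l W).card)
                rw [mem_thr] at hx hy
                rw [eq_pt hW (hl x y hxy) hx hy]
                exact finrank_pt (hl x y hxy)
              have hWT : W ∈ T := (hTmem W).2 ⟨hW2, hCW, hWA, hWB, hWE, by omega⟩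
              have e : mu C l W / 2 - 1 ≤ 1 := by omega
              apply Ideal.pow_le_pow_right e
              rw [pow_one]
              apply Ideal.mul_mem_left
              have := hQm (Sum.inr ⟨W, hWT⟩)
              rwa [show mm (Sum.inr ⟨W, hWT⟩) = 1 from rfl, pow_one] at this
      · have h5 : mu C l W / 2 - 1 = 0 := by omega
        rw [h5, pow_zero, Ideal.one_eq_top]
        trivial

end Pool.Agent.J4H56.LC
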