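import Pool.Agent.J4H56.LC.Dim

/-! Project LC (helper13): job TWO. -/

set_option autoImplicit false

open MvPolynomial

namespace Pool.Agent.J4H56.LC

open Pool.Agent.J4H13.LA Pool.Agent.J4H13.LC

section
variable {n : ℕ} {l : Fin n → V3}

lemma eq_of_two (hl : ∀ i j, i ≠ j → LinearIndependent ℂ ![l i, l j]) {W A : Submodule ℂ V3}
    (hW : Module.finrank ℂ W ≤ 2) (hA : Module.finrank ℂ A ≤ 2) {i j : Fin n} (hij : i ≠ j)
    (h1 : l i ∈ W) (h2 : l j ∈ W) (h3 : l i ∈ A) (h4 : l j ∈ A) : W = A :=
  (eq_pt hW (hl i j hij) h1 h2).trans (eq_pt hA (hl i j hij) h3 h4).symm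

open scoped Classical in
lemma card_inter_le (hl : ∀ i j, i ≠ j → LinearIndependent ℂ ![l i, l j])
    {W A : Submodule ℂ V3} (hW : Module.finrank ℂ W ≤ 2) (hA : Module.finrank ℂ A ≤ 2)
    (hne : W ≠ A) : (thr l W ∩ thr l A).card ≤ 1 := by
  by_contra hcon
  push Not at hcon
  obtain ⟨i, hi, j, hj, hij⟩ := Finset.one_lt_card.1 hcon
  rw [Finset.mem_inter, mem_thr, mem_thr] at hi hj
  exact hne (eq_of_two hl hW hA hij hi.1 hj.1 hi.2 hj.2)

end

theorem t_TWO : S_TWO := by
  classical
  intro hB C hC k l hl A E hA hE hAE hCA h3 hodd heven hi hall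
  obtain ⟨i, hiA, hiE⟩ := hi
  have hiA' : i ∈ thr l A := (mem_thr l).2 hiA
  have hiE' : i ∈ thr l E := (mem_thr l).2 hiE
  have hint : (thr l A ∩ thr l E).card = 1 := by
    apply le_antisymm (card_inter_le hl hA.le hE.le hAE)
    exact Finset.card_pos.2 ⟨i, Finset.mem_inter.2 ⟨hiA', hiE'⟩⟩
  have hun : thr l A ∪ thr l E = Finset.univ := by
    apply Finset.eq_univ_of_forall
    intro j
    rw [Finset.mem_union, mem_thr, mem_thr]
    exact hall j
  have hcard := Finset.card_union_add_card_inter (thr l A) (thr l E)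
  rw [hun, hint, Finset.card_univ, Fintype.card_fin] at hcard
  have hpos : 0 < (thr l E).card := Finset.card_pos.2 ⟨i, hiE'⟩
  obtain ⟨a, ha⟩ := hodd
  obtain ⟨b, hb⟩ := heven
  rcases Nat.lt_or_ge b 2 with hb2 | hb2
  · -- all lines but one through `A`
    right
    have hb1 : b = 1 := by omega
    obtain ⟨h, hh, hhi⟩ : ∃ h ∈ thr l E, h ≠ i := by
      by_contra hcon
      push Not at hcon
      have h1 : thr l E ⊆ {i} := fun x hx => Finset.mem_singleton.2 (hcon x hx)
      have := Finset.card_le_card h1
      rw [Finset.card_singleton] at this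
      omega
    have hhE : l h ∈ E := (mem_thr l).1 hh
    have hhA : l h ∉ A := fun hh' => hAE (eq_of_two hl hA.le hE.le hhi hh' hiA hhE hiE)
    have hthrE : ∀ j, l j ∈ E → j = i ∨ j = h := by
      intro j hj
      by_contra hcon
      push Not at hcon
      have h1 : ({i, h, j} : Finset (Fin (2 * k))) ⊆ thr l E := by
        intro x hx
        simp only [Finset.mem_insert, Finset.mem_singleton] at hx
        rcases hx with rfl | rfl | rfl
        · exact hiE'
        · exact hh
        · exact (mem_thr l).2 hj
      have h2 := Finset.card_le_card h1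
      rw [Finset.card_eq_three.2 ⟨i, h, j, hhi.symm, hcon.1.symm, hcon.2.symm, rfl⟩] at h2
      omega
    obtain ⟨X, hX, hhX, hCX⟩ := hB.2.1 C 2 (by norm_num) hC (l h) ((hl h i hhi).ne_zero 0)
    obtain ⟨Y, hY, hYf, hCY⟩ := hB.2.2 C 2 (by norm_num) hC {A, X}
    rw [Finset.mem_insert, Finset.mem_singleton, not_or] at hY
    refine ⟨A, X, Y, ?_, fun h => hY.1 h.symm, fun h => hY.2 h.symm, hA, hX, hYf, hCA, hCX, hCY,
      ?_⟩
    · rintro rfl
      exact hhA hhX
    · intro j
      rcases hall j with hj | hj
      · exact Or.inl hj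
      · rcases hthrE j hj with rfl | rfl
        · exact Or.inl hiA
        · exact Or.inr (Or.inl hhX)
  · -- the adjoint form
    left
    obtain ⟨j, hj, hji⟩ : ∃ j ∈ thr l A, j ≠ i := by
      by_contra hcon
      push Not at hcon
      have h1 : thr l A ⊆ {i} := fun x hx => Finset.mem_singleton.2 (hcon x hx)
      have := Finset.card_le_card h1
      rw [Finset.card_singleton] at this
      omega
    obtain ⟨h, hh, hhi⟩ : ∃ h ∈ thr l E, h ≠ i := by
      by_contra hcon
      push Not at hcon
      have h1 : thr l E ⊆ {i} := fun x hx => Finset.mem_singleton.2 (hcon x hx)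
      have := Finset.card_le_card h1
      rw [Finset.card_singleton] at this
      omega
    have hli : l i ≠ 0 := (hl i j hji.symm).ne_zero 0
    have hlj : l j ≠ 0 := (hl j i hji).ne_zero 0
    have hlh : l h ≠ 0 := (hl h i hhi).ne_zero 0
    refine ⟨by omega, lin (l i) * (lin (l j) ^ (a - 1) * lin (l h) ^ (b - 2)), ?_, ?_, ?_⟩
    · exact mul_ne_zero (lin_ne_zero hli)
        (mul_ne_zero (pow_ne_zero _ (lin_ne_zero hlj)) (pow_ne_zero _ (lin_ne_zero hlh)))
    · have h1 := (lin_homog (l i)).mul
        (((lin_homog (l j)).pow (a - 1)).mul ((lin_homog (l h)).pow (b - 2)))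
      have e : 1 + (1 * (a - 1) + 1 * (b - 2)) = k - 2 := by omega
      rwa [e] at h1
    · intro W hW
      by_cases hmu : 4 ≤ mu C l W
      · by_cases hWA : W = A
        · subst hWA
          have e : mu C l W / 2 - 1 ≤ 1 + (a - 1) := by
            unfold mu
            rw [if_pos hCA]
            omega
          apply Ideal.pow_le_pow_right e
          rw [pow_add, pow_one, ← mul_assoc]
          refine Ideal.mul_mem_right _ _ (Ideal.mul_mem_mul (lin_mem_IW hiA)
            (Ideal.pow_mem_pow (lin_mem_IW ((mem_thr l).1 hj)) _))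
        · by_cases hWE : W = E
          · subst hWE
            have e : mu C l W / 2 - 1 ≤ 1 + (b - 2) := by
              unfold mu
              split_ifs <;> omega
            apply Ideal.pow_le_pow_right e
            rw [pow_add, pow_one]
            refine Ideal.mul_mem_mul (lin_mem_IW hiE) (Ideal.mul_mem_left _ _
              (Ideal.pow_mem_pow (lin_mem_IW ((mem_thr l).1 hh)) _))
          · exfalso
            have h1 := card_inter_le hl hW hA.le hWA
            have h2 := card_inter_le hl hW hE.le hWE
            have h4 : thr l W ⊆ (thr l W ∩ thr l A) ∪ (thr l W ∩ thr l E) := by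
              rw [← Finset.inter_union_distrib_left, hun, Finset.inter_univ]
            have h5 := (Finset.card_le_card h4).trans (Finset.card_union_le _ _)
            have h6 : mu C l W ≤ (thr l W).card + 1 := by
              unfold mu
              split_ifs <;> omega
            omega
      · have h5 : mu C l W / 2 - 1 = 0 := by omega
        rw [h5, pow_zero, Ideal.one_eq_top]
        trivial

end Pool.Agent.J4H56.LC
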