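import Pool.Agent.J4H13.LC.Jobs2
import Pool.Agent.J4H56.LC.Two

/-! Project LC, stage 2 (helper13): job TWO3. -/

set_option autoImplicit false

open MvPolynomial

namespace Pool.Agent.J4H56.LC

open Pool.Agent.J4H13.LA Pool.Agent.J4H13.LC

theorem t_TWO3 : S_TWO3 := by
  classical
  intro C k l hl A E hA hE hAE hCA hCE h3 h3E hodd hoddE hi hall
  obtain ⟨i, hiA, hiE⟩ := hi
  have hiA' : i ∈ thr l A := (mem_thr l).2 hiA
  have hiE' : i ∈ thr l E := (mem_thr l).2 hiE
  have hint : (thr l A ∩ thr l E).card = 1 := by
    apply le_antisymm (card_inter_le hl hA.le hE.le hAE)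
    exact Finset.card_pos.2 ⟨i, Finset.mem_inter.2 ⟨hiA', hiE'⟩⟩
  have hun : thr l A ∪ thr l E = Finset.univ := by
    apply Finset.eq_univ_of_forall
    intro j
    rw [Finset.mem_union, mem_thr, mem_thr]
    exact hall j
  have hcard := Finset.card_union_add_card_inter (thr l A) (thr l E)
  rw [hun, hint, Finset.card_univ, Fintype.card_fin] at hcard
  obtain ⟨a, ha⟩ := hodd
  obtain ⟨b, hb⟩ := hoddE
  obtain ⟨j, hj, hji⟩ : ∃ j ∈ thr l A, j ≠ i := by
    by_contra hcon
    push Not at hcon
    have h1 : thr l A ⊆ {i} := fun x hx => Finset.mem_singleton.2 (hcon x hx)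
    have := Finset.card_le_card h1
    rw [Finset.card_singleton] at this
    omega
  obtain ⟨h, hh, hhi⟩ : ∃ h ∈ thr l E, h ≠ i := by
    by_contra hcon
    push Not at hcon
    have h1 : thr l E ⊆ {i} := fun x hx => Finset.mem_singleton.2 (hcon x hx)
    have := Finset.card_le_card h1
    rw [Finset.card_singleton] at this
    omega
  have hli : l i ≠ 0 := (hl i j hji.symm).ne_zero 0
  have hlj : l j ≠ 0 := (hl j i hji).ne_zero 0
  have hlh : l h ≠ 0 := (hl h i hhi).ne_zero 0
  refine ⟨by omega, lin (l i) * (lin (l j) ^ (a - 1) * lin (l h) ^ (b - 1)), ?_, ?_, ?_⟩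
  · exact mul_ne_zero (lin_ne_zero hli)
      (mul_ne_zero (pow_ne_zero _ (lin_ne_zero hlj)) (pow_ne_zero _ (lin_ne_zero hlh)))
  · have h1 := (lin_homog (l i)).mul
      (((lin_homog (l j)).pow (a - 1)).mul ((lin_homog (l h)).pow (b - 1)))
    have e : 1 + (1 * (a - 1) + 1 * (b - 1)) = k - 1 := by omega
    rwa [e] at h1
  · intro W hW
    by_cases hmu : 4 ≤ mu C l W
    · by_cases hWA : W = A
      · subst hWA
        have e : mu C l W / 2 - 1 ≤ 1 + (a - 1) := by
          unfold mu
          rw [if_pos hCA]
          omega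
        apply Ideal.pow_le_pow_right e
        rw [pow_add, pow_one, ← mul_assoc]
        refine Ideal.mul_mem_right _ _ (Ideal.mul_mem_mul (lin_mem_IW hiA)
          (Ideal.pow_mem_pow (lin_mem_IW ((mem_thr l).1 hj)) _))
      · by_cases hWE : W = E
        · subst hWE
          have e : mu C l W / 2 - 1 ≤ 1 + (b - 1) := by
            unfold mu
            rw [if_pos hCE]
            omega
          apply Ideal.pow_le_pow_right e
          rw [pow_add, pow_one]
          refine Ideal.mul_mem_mul (lin_mem_IW hiE) (Ideal.mul_mem_left _ _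
            (Ideal.pow_mem_pow (lin_mem_IW ((mem_thr l).1 hh)) _))
        · exfalso
          have h1 := card_inter_le hl hW hA.le hWA
          have h2 := card_inter_le hl hW hE.le hWE
          have h4 : thr l W ⊆ (thr l W ∩ thr l A) ∪ (thr l W ∩ thr l E) := by
            rw [← Finset.inter_union_distrib_left, hun, Finset.inter_univ]
          have h5 := (Finset.card_le_card h4).trans (Finset.card_union_le _ _)
          have h6 : mu C l W ≤ (thr l W).card + 1 := by
            unfold mu
            split_ifs <;> omega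
          omega
    · have h5 : mu C l W / 2 - 1 = 0 := by omega
      rw [h5, pow_zero, Ideal.one_eq_top]
      trivial

end Pool.Agent.J4H56.LC
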