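import Pool.Agent.J4H64.LC.Crem
import Pool.Agent.J4H13.LC.Jobs2
import Pool.Agent.J4H56.LC.Two

/-! Project LC, stage 2 (helper13): cubic forms in a basis of linear forms. -/

set_option autoImplicit false

open MvPolynomial

namespace Pool.Agent.J4H56.LC

open Pool.Agent.J4H13.LA Pool.Agent.J4H13.LC Pool.Agent.J4H64.LC

/-- a cubic form as a combination of linear forms with quadratic forms as coefficients -/
lemma cubic_split {m : Fin 3 → V3} (hm : LinearIndependent ℂ m) {Q : P3}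
    (hQ : Q.IsHomogeneous 3) : ∃ q : Fin 3 → P3, (∀ k, (q k).IsHomogeneous 2) ∧
    Q = lin (m 0) * q 0 + lin (m 1) * q 1 + lin (m 2) * q 2 := by
  have hq := fun i : Fin 3 => hQ.pderiv (i := i)
  choose c hc using exists_coeffs hm
  have hX : ∀ i : Fin 3, (X i : P3) = C (c (Pi.single i 1) 0) * lin (m 0) +
      C (c (Pi.single i 1) 1) * lin (m 1) + C (c (Pi.single i 1) 2) * lin (m 2) := by
    intro i
    rw [← lin_single i]
    conv_lhs => rw [hc (Pi.single i 1)]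
    rw [lin_add, lin_add, lin_smul, lin_smul, lin_smul]
  refine ⟨fun k => ∑ i, C (3⁻¹ * c (Pi.single i 1) k) * pderiv i Q, fun k => ?_, ?_⟩
  · apply IsHomogeneous.sum
    intro i _
    have h1 : (pderiv i Q).IsHomogeneous 2 := hq i
    have := (isHomogeneous_C (Fin 3) (3⁻¹ * c (Pi.single i 1) k)).mul h1
    rwa [zero_add] at this
  · have h1 := hQ.sum_X_mul_pderiv
    have h2 : Q = C (3⁻¹ : ℂ) * (3 • Q) := by
      rw [nsmul_eq_mul, ← mul_assoc]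
      have : (C (3⁻¹ : ℂ) : P3) * ((3 : ℕ) : P3) = 1 := by
        rw [← C_eq_coe_nat, ← C_mul]
        norm_num
      rw [this, one_mul]
    conv_lhs => rw [h2, ← h1, Fin.sum_univ_three, hX 0, hX 1, hX 2]
    simp only [Fin.sum_univ_three, C_mul]
    ring

/-- a cubic form in a basis of linear forms, ten coefficients -/
lemma cubic_ten {m : Fin 3 → V3} (hm : LinearIndependent ℂ m) {Q : P3}
    (hQ : Q.IsHomogeneous 3) : ∃ c₁ c₂ c₃ c₄ c₅ c₆ c₇ c₈ c₉ c₁₀ : ℂ,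
    Q = C c₁ * lin (m 0) ^ 3 + C c₂ * lin (m 1) ^ 3 + C c₃ * lin (m 2) ^ 3 +
      C c₄ * (lin (m 0) ^ 2 * lin (m 1)) + C c₅ * (lin (m 0) * lin (m 1) ^ 2) +
      C c₆ * (lin (m 0) ^ 2 * lin (m 2)) + C c₇ * (lin (m 0) * lin (m 2) ^ 2) +
      C c₈ * (lin (m 1) ^ 2 * lin (m 2)) + C c₉ * (lin (m 1) * lin (m 2) ^ 2) +
      C c₁₀ * (lin (m 0) * lin (m 1) * lin (m 2)) := by
  obtain ⟨q, hq, hQq⟩ := cubic_split hm hQ
  obtain ⟨a₀₀, a₁₁, a₂₂, a₀₁, a₀₂, a₁₂, ha⟩ := quad_six hm (hq 0)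
  obtain ⟨b₀₀, b₁₁, b₂₂, b₀₁, b₀₂, b₁₂, hb⟩ := quad_six hm (hq 1)
  obtain ⟨d₀₀, d₁₁, d₂₂, d₀₁, d₀₂, d₁₂, hd⟩ := quad_six hm (hq 2)
  refine ⟨a₀₀, b₁₁, d₂₂, a₀₁ + b₀₀, a₁₁ + b₀₁, a₀₂ + d₀₀, a₂₂ + d₀₂, b₁₂ + d₁₁, b₂₂ + d₁₂,
    a₁₂ + b₀₂ + d₀₁, ?_⟩
  rw [hQq, ha, hb, hd]
  simp only [C_add]
  ring

/-- The cubics through the six vertices of a complete quadrilateral. -/
lemma cubic_quadrilateral {m : Fin 3 → V3} (hm : LinearIndependent ℂ m) {Q : P3}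
    (hQ : Q.IsHomogeneous 3) {A B E P₁ P₂ P₃ : Submodule ℂ V3}
    (hA : A ≤ Submodule.span ℂ {m 0, m 1 + m 2}) (hB : B ≤ Submodule.span ℂ {m 1, m 0 + m 2})
    (hE : E ≤ Submodule.span ℂ {m 2, m 0 + m 1}) (h1 : P₁ ≤ Submodule.span ℂ {m 0, m 2})
    (h2 : P₂ ≤ Submodule.span ℂ {m 1, m 2}) (h3 : P₃ ≤ Submodule.span ℂ {m 0, m 1})
    (cA : Q ∈ IW A) (cB : Q ∈ IW B) (cE : Q ∈ IW E) (c1 : Q ∈ IW P₁) (c2 : Q ∈ IW P₂)
    (c3 : Q ∈ IW P₃) : ∃ a b e μ : ℂ, Q = cub a b e μ (lin (m 0)) (lin (m 1)) (lin (m 2)) := by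
  obtain ⟨k₁, k₂, k₃, k₄, k₅, k₆, k₇, k₈, k₉, k₁₀, hq⟩ := cubic_ten hm hQ
  have key : ∀ (W : Submodule ℂ V3) (u v : V3) (t : V3), W ≤ Submodule.span ℂ {u, v} →
      (∀ p : V3, (∀ j, eval p (lin (m j)) = t j) → eval p (lin u) = 0 ∧ eval p (lin v) = 0) →
      Q ∈ IW W →
      k₁ * t 0 ^ 3 + k₂ * t 1 ^ 3 + k₃ * t 2 ^ 3 + k₄ * (t 0 ^ 2 * t 1) + k₅ * (t 0 * t 1 ^ 2) +
        k₆ * (t 0 ^ 2 * t 2) + k₇ * (t 0 * t 2 ^ 2) + k₈ * (t 1 ^ 2 * t 2) +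
        k₉ * (t 1 * t 2 ^ 2) + k₁₀ * (t 0 * t 1 * t 2) = 0 := by
    intro W u v t hW huv hQW
    obtain ⟨p, hp⟩ := exists_dual hm t
    obtain ⟨hu, hv⟩ := huv p hp
    have h4 := eval_IW (p := p) (A := W) (fun w hw => by
      obtain ⟨a, b, hab⟩ := Submodule.mem_span_pair.1 (hW hw)
      rw [← hab, lin_add, lin_smul, lin_smul, map_add, map_mul, map_mul, hu, hv, mul_zero,
        mul_zero, add_zero]) hQW
    rw [hq] at h4
    simp only [map_add, map_mul, map_pow, eval_C, hp] at h4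
    exact h4
  have eA := key A _ _ ![0, 1, -1] hA (fun p hp => by
    rw [lin_add, map_add, hp, hp, hp]; simp) cA
  have eB := key B _ _ ![1, 0, -1] hB (fun p hp => by
    rw [lin_add, map_add, hp, hp, hp]; simp) cB
  have eE := key E _ _ ![1, -1, 0] hE (fun p hp => by
    rw [lin_add, map_add, hp, hp, hp]; simp) cE
  have e1 := key P₁ _ _ ![0, 1, 0] h1 (fun p hp => by rw [hp, hp]; simp) c1
  have e2 := key P₂ _ _ ![1, 0, 0] h2 (fun p hp => by rw [hp, hp]; simp) c2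
  have e3 := key P₃ _ _ ![0, 0, 1] h3 (fun p hp => by rw [hp, hp]; simp) c3
  simp at eA eB eE e1 e2 e3
  subst e1 e2 e3
  have f1 : k₉ = k₈ := by linear_combination eA
  have f2 : k₇ = k₆ := by linear_combination eB
  have f3 : k₅ = k₄ := by linear_combination eE
  refine ⟨k₈, k₆, k₄, k₁₀, ?_⟩
  rw [hq, f1, f2, f3]
  unfold cub
  simp only [C_0, MvPolynomial.algebraMap_eq]
  ring

end Pool.Agent.J4H56.LC
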