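import Pool.Agent.J4H13.LC.Jobs

/-! Project LC (helper13): job DIM. -/

set_option autoImplicit false

open MvPolynomial

namespace Pool.Agent.J4H56.LC

open Pool.Agent.J4H13.LA Pool.Agent.J4H13.LC

/-- a basis of a point -/
lemma exists_pair {W : Submodule ℂ V3} (hW : Module.finrank ℂ W = 2) :
    ∃ a b : V3, a ∈ W ∧ b ∈ W ∧ LinearIndependent ℂ ![a, b] := by
  let b := Module.finBasisOfFinrankEq ℂ W hW
  refine ⟨b 0, b 1, (b 0).2, (b 1).2, ?_⟩
  have h1 := b.linearIndependent.map' W.subtype (Submodule.ker_subtype W)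
  have h2 : (W.subtype ∘ b : Fin 2 → V3) = ![((b 0 : W) : V3), ((b 1 : W) : V3)] := by
    funext i
    fin_cases i <;> rfl
  rwa [h2] at h1

theorem t_DIM : S_DIM := by
  classical
  intro ι _ W m D hW hcount
  have hF : ∀ i : ι, ∃ (β γ : P3 →ₐ[ℂ] P3), (∀ P, β (γ P) = P) ∧ β (X 1) ∈ IW (W i) ∧
      β (X 2) ∈ IW (W i) ∧ ∀ (P : P3) (e : ℕ), P.IsHomogeneous e → (γ P).IsHomogeneous e := by
    intro i
    obtain ⟨a, b, ha, hb, hab⟩ := exists_pair (hW i)
    exact exists_coord hab ha hb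
  choose β γ hβγ hβ1 hβ2 hγ using hF
  let Λ : (tri (D + 1) → ℂ) →ₗ[ℂ] ((i : ι) → tri (m i) → ℂ) :=
    LinearMap.pi fun i => condL D (γ i) (m i)
  have hker : LinearMap.ker Λ ≠ ⊥ := by
    apply LinearMap.ker_ne_bot_of_finrank_lt
    rw [Module.finrank_pi_fintype, Module.finrank_fintype_fun_eq_card, Fintype.card_coe, card_tri]
    simp only [Module.finrank_fintype_fun_eq_card, Fintype.card_coe, card_tri]
    exact hcount
  obtain ⟨c, hc, hc0⟩ := (Submodule.ne_bot_iff _).1 hker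
  refine ⟨form D c, ?_, form_homog _ _, ?_⟩
  · intro h
    apply hc0
    funext x
    rw [← coeff_form D c x, h, coeff_zero, Pi.zero_apply]
  · intro i
    refine mem_pow_of_coeff (hβγ i) (hβ1 i) (hβ2 i) (hγ i) (form_homog _ _) ?_
    intro x hx
    have h5 : Λ c i = 0 := by
      rw [LinearMap.mem_ker.1 hc]
      rfl
    exact congrFun h5 ⟨x, hx⟩

end Pool.Agent.J4H56.LC
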