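import Pool.Agent.J4H13.LC.Jobs2

/-! Project LC, stage 2 (helper13): job ENRC. -/

set_option autoImplicit false

open MvPolynomial

namespace Pool.Agent.J4H56.LC

open Pool.Agent.J4H13.LA Pool.Agent.J4H13.LC

lemma add_ne {m : Fin 3 → V3} (hm : LinearIndependent ℂ m) {i j : Fin 3} (hij : i ≠ j) :
    m i + m j ≠ 0 := by
  intro h
  have h1 := hm.comp ![i, j] (by
    intro x y hxy
    fin_cases x <;> fin_cases y
    · rfl
    · exact absurd hxy hij
    · exact absurd hxy.symm hij
    · rfl)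
  have h2 : (m ∘ ![i, j]) = ![m i, m j] := by
    funext x
    fin_cases x <;> rfl
  rw [h2] at h1
  have h3 := LinearIndependent.pair_iff.1 h1 1 1 (by rw [one_smul, one_smul]; exact h)
  exact one_ne_zero h3.1

theorem t_ENRC : S_ENRC := by
  intro m hm a b e μ hN
  refine ⟨?_, ?_, ?_⟩
  · rintro ⟨rfl, rfl⟩
    apply hN.1 (m 1 + m 2) (add_ne hm (by decide))
    refine ⟨C a * (lin (m 1) * lin (m 2)) + C b * (lin (m 0) * (lin (m 0) + lin (m 1) +
      lin (m 2))), ?_⟩
    rw [lin_add]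
    unfold cub
    simp only [MvPolynomial.algebraMap_eq, C_mul]
    have : (C (2 : ℂ) : P3) = 2 := by
      rw [map_ofNat]
    rw [this]
    ring
  · rintro ⟨rfl, rfl⟩
    apply hN.1 (m 0 + m 2) (add_ne hm (by decide))
    refine ⟨C e * (lin (m 1) * (lin (m 0) + lin (m 1) + lin (m 2))) +
      C b * (lin (m 0) * lin (m 2)), ?_⟩
    rw [lin_add]
    unfold cub
    simp only [MvPolynomial.algebraMap_eq, C_mul]
    have : (C (2 : ℂ) : P3) = 2 := by
      rw [map_ofNat]
    rw [this]
    ring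
  · rintro ⟨rfl, rfl⟩
    apply hN.1 (m 0 + m 1) (add_ne hm (by decide))
    refine ⟨C b * (lin (m 2) * (lin (m 0) + lin (m 1) + lin (m 2))) +
      C e * (lin (m 0) * lin (m 1)), ?_⟩
    rw [lin_add]
    unfold cub
    simp only [MvPolynomial.algebraMap_eq, C_mul]
    have : (C (2 : ℂ) : P3) = 2 := by
      rw [map_ofNat]
    rw [this]
    ring

end Pool.Agent.J4H56.LC
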